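import Pool.Agent.Lib.MP_776035_co.Root

/-!
# Patterns, moving a configuration, closedness
-/

set_option autoImplicit false

open Filter Topology Polynomial

namespace Pool.Agent.Lib.MP_776035_co

/-- the Euclidean plane -/
abbrev Plane : Type := EuclideanSpace ℝ (Fin 2)

/-- `c` is a proper colouring on the set `F`: the colour classes in `T` do not realise the distance
`α`, the other ones do not realise the distance `1` -/
def ProperOn {n : ℕ} (T : Set (Fin n)) (α : ℝ) (F : Set Plane) (c : Plane → Fin n) : Prop :=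
  ∀ p ∈ F, ∀ q ∈ F, c p = c q → (c p ∈ T → dist p q ≠ α) ∧ (c p ∉ T → dist p q ≠ 1)

/-- the values `α > 0` for which there is a colouring of the plane with `n` colours such that the
colour classes in `T` do not realise the distance `α` and the other ones do not realise the
distance `1` -/
def Realizable (n : ℕ) (T : Set (Fin n)) : Set ℝ :=
  {α | 0 < α ∧ ∃ c : Plane → Fin n, ProperOn T α Set.univ c}

/-- de Bruijn and Erdős -/
theorem compactness {n : ℕ} (T : Set (Fin n)) (α : ℝ)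
    (h : ∀ F : Finset Plane, ∃ c : Plane → Fin n, ProperOn T α (F : Set Plane) c) :
    ∃ c : Plane → Fin n, ProperOn T α Set.univ c := by
  classical
  choose c hc using h
  set U : Ultrafilter (Finset Plane) := Ultrafilter.of atTop with hU
  have hle : (U : Filter (Finset Plane)) ≤ atTop := Ultrafilter.of_le _
  have hpr : ∀ p : Plane, ∃ i : Fin n, ∀ᶠ F in (U : Filter (Finset Plane)), c F p = i := by
    intro p
    obtain ⟨i, hi⟩ := Ultrafilter.eq_pure_of_finite (U.map (fun F => c F p))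
    refine ⟨i, ?_⟩
    have h1 : {i} ∈ (U.map (fun F => c F p)) := by
      rw [hi]
      exact rfl
    exact h1
  choose C hC using hpr
  refine ⟨C, ?_⟩
  intro p _ q _ hpq
  have h1 : ∀ᶠ F in (U : Filter (Finset Plane)), ({p, q} : Finset Plane) ≤ F :=
    hle (eventually_ge_atTop _)
  obtain ⟨F, hp, hq, hF⟩ := ((hC p).and ((hC q).and h1)).exists
  have hpF : p ∈ (F : Set Plane) := hF (by simp)
  have hqF : q ∈ (F : Set Plane) := hF (by simp)
  have h2 := hc F p hpF q hqF (by rw [hp, hq, hpq])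
  rw [hp] at h2
  exact h2

theorem dist_eq_iff {d : ℝ} (hd : 0 ≤ d) (p q : Plane) :
    dist p q = d ↔ (p 0 - q 0) ^ 2 + (p 1 - q 1) ^ 2 = d ^ 2 := by
  rw [EuclideanSpace.dist_eq, Fin.sum_univ_two, Real.dist_eq, Real.dist_eq, sq_abs, sq_abs,
    Real.sqrt_eq_iff_eq_sq (by positivity) hd]

/-- a finite pattern: `N` points, pairs at distance `1`, pairs at distance `α` -/
structure Pat where
  /-- number of points -/
  N : ℕ
  /-- pairs at distance one -/
  E1 : Finset (Fin N × Fin N)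
  /-- pairs at distance `α` -/
  E2 : Finset (Fin N × Fin N)

/-- the pattern is colourable -/
def Pat.Colorable (G : Pat) {n : ℕ} (T : Set (Fin n)) : Prop :=
  ∃ c : Fin G.N → Fin n, (∀ e ∈ G.E1, c e.1 = c e.2 → c e.1 ∈ T) ∧
    (∀ e ∈ G.E2, c e.1 = c e.2 → c e.1 ∉ T)

/-- the positive `α` for which the pattern can be drawn in the plane -/
def Pat.S (G : Pat) : Set ℝ :=
  {α | 0 < α ∧ ∃ f : Fin G.N → Plane, (∀ e ∈ G.E1, dist (f e.1) (f e.2) = 1) ∧
    ∀ e ∈ G.E2, dist (f e.1) (f e.2) = α}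

theorem countable_Pat : Countable Pat := by
  have : Function.Injective (fun G : Pat =>
      (⟨G.N, (G.E1, G.E2)⟩ : Σ N : ℕ, Finset (Fin N × Fin N) × Finset (Fin N × Fin N))) := by
    rintro ⟨N, a, b⟩ ⟨N', a', b'⟩ h
    simp only [Sigma.mk.injEq] at h
    obtain ⟨rfl, h⟩ := h
    rw [heq_eq_eq, Prod.mk.injEq] at h
    obtain ⟨rfl, rfl⟩ := h
    rfl
  exact this.countable

/-- the complement of the realizable set is the union of the sets of the patterns that are not
colourable -/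
theorem not_realizable_iff {n : ℕ} (T : Set (Fin n)) {α : ℝ} (hα : 0 < α) :
    α ∉ Realizable n T ↔ ∃ G : Pat, ¬ G.Colorable T ∧ α ∈ G.S := by
  classical
  constructor
  · intro h
    by_contra hcon
    push Not at hcon
    apply h
    refine ⟨hα, compactness T α fun F => ?_⟩
    -- the pattern of `F`
    set e := F.equivFin with he
    set G : Pat := ⟨F.card,
      Finset.univ.filter (fun z => dist ((e.symm z.1 : F) : Plane) (e.symm z.2 : F) = 1),
      Finset.univ.filter (fun z => dist ((e.symm z.1 : F) : Plane) (e.symm z.2 : F) = α)⟩ with hG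
    have hS : α ∈ G.S := by
      refine ⟨hα, fun i => ((e.symm i : F) : Plane), ?_, ?_⟩
      · intro z hz
        exact (Finset.mem_filter.1 hz).2
      · intro z hz
        exact (Finset.mem_filter.1 hz).2
    have hcol : G.Colorable T := by
      by_contra hnc
      exact hcon G hnc hS
    obtain ⟨c, hc1, hc2⟩ := hcol
    have hn : F.Nonempty → 0 < n := by
      rintro ⟨p, hp⟩
      exact lt_of_le_of_lt (Nat.zero_le _) (c (e ⟨p, hp⟩)).2
    rcases F.eq_empty_or_nonempty with rfl | hne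
    · -- the empty set
      by_cases hn0 : 0 < n
      · exact ⟨fun _ => ⟨0, hn0⟩, fun p hp => absurd hp (by simp)⟩
      · exfalso
        -- no colours: the pattern with one point is not colourable
        have hn1 : n = 0 := by omega
        subst hn1
        apply hcon ⟨1, ∅, ∅⟩
        · rintro ⟨c', _⟩
          exact (c' 0).elim0
        · exact ⟨hα, fun _ => 0, by simp, by simp⟩
    · have hn0 := hn hne
      refine ⟨fun p => if hp : p ∈ F then c (e ⟨p, hp⟩) else ⟨0, hn0⟩, ?_⟩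
      intro p hp q hq hpq
      have hp' : p ∈ F := hp
      have hq' : q ∈ F := hq
      simp only [hp', hq', dif_pos] at hpq ⊢
      constructor
      · intro ht hd
        exact hc2 (e ⟨p, hp'⟩, e ⟨q, hq'⟩)
          (Finset.mem_filter.2 ⟨Finset.mem_univ _, by simpa using hd⟩) hpq ht
      · intro ht hd
        exact ht (hc1 (e ⟨p, hp'⟩, e ⟨q, hq'⟩)
          (Finset.mem_filter.2 ⟨Finset.mem_univ _, by simpa using hd⟩) hpq)
  · rintro ⟨G, hG, _, f, hf1, hf2⟩ ⟨_, c, hc⟩
    apply hG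
    refine ⟨fun i => c (f i), ?_, ?_⟩
    · intro e he hce
      by_contra ht
      exact (hc (f e.1) (Set.mem_univ _) (f e.2) (Set.mem_univ _) hce).2 ht (hf1 e he)
    · intro e he hce ht
      exact (hc (f e.1) (Set.mem_univ _) (f e.2) (Set.mem_univ _) hce).1 ht (hf2 e he)

/-- moving a pattern -/
theorem Pat.move (G : Pat) {α : ℝ} (hα : Transcendental ℚ α) (hS : α ∈ G.S)
    (x : ℕ → ℝ) (hx0 : ∀ k, 0 < x k) (hx : Tendsto x atTop (𝓝 α)) : ∃ k, x k ∈ G.S := by
  classical
  obtain ⟨hα0, f, hf1, hf2⟩ := hS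
  obtain ⟨M0, Φ0, hαM0, hg0, hΦ0⟩ := exists_start hα hx
  obtain ⟨M, Φ, hle, hmem, hg, hext⟩ := hg0.finite
    (Finset.univ.image (fun i => f i 0) ∪ Finset.univ.image (fun i => f i 1))
  have hΦα : Φ ⟨α, hle hαM0⟩ = (x : RS) := by
    rw [← hΦ0, ← hext ⟨α, hαM0⟩]
  have hm0 : ∀ i, f i 0 ∈ M := fun i =>
    hmem _ (Finset.mem_union_left _ (Finset.mem_image_of_mem _ (Finset.mem_univ i)))
  have hm1 : ∀ i, f i 1 ∈ M := fun i =>
    hmem _ (Finset.mem_union_right _ (Finset.mem_image_of_mem _ (Finset.mem_univ i)))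
  have hrep0 : ∀ i, ∃ g : ℕ → ℝ, (g : RS) = Φ ⟨f i 0, hm0 i⟩ := by
    intro i
    induction Φ ⟨f i 0, hm0 i⟩ using Germ.inductionOn with | _ g => exact ⟨g, rfl⟩
  have hrep1 : ∀ i, ∃ g : ℕ → ℝ, (g : RS) = Φ ⟨f i 1, hm1 i⟩ := by
    intro i
    induction Φ ⟨f i 1, hm1 i⟩ using Germ.inductionOn with | _ g => exact ⟨g, rfl⟩
  choose g0 hg0' using hrep0
  choose g1 hg1' using hrep1
  set pt : ℕ → Fin G.N → Plane := fun k i => !₂[g0 i k, g1 i k] with hpt
  have hpt0 : ∀ k i, pt k i 0 = g0 i k := fun k i => rfl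
  have hpt1 : ∀ k i, pt k i 1 = g1 i k := fun k i => rfl
  have h1 : ∀ i j, dist (f i) (f j) = 1 →
      ∀ᶠ k in (hyperfilter ℕ : Filter ℕ), dist (pt k i) (pt k j) = 1 := by
    intro i j hd
    rw [dist_eq_iff zero_le_one] at hd
    have e1 : (⟨f i 0, hm0 i⟩ - ⟨f j 0, hm0 j⟩ : M) ^ 2 +
        (⟨f i 1, hm1 i⟩ - ⟨f j 1, hm1 j⟩ : M) ^ 2 = 1 := by
      apply Subtype.ext
      rw [one_pow] at hd
      exact hd
    have e2 := congrArg Φ e1
    rw [map_add, map_pow, map_pow, map_sub, map_sub, map_one, ← hg0' i, ← hg0' j,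
      ← hg1' i, ← hg1' j] at e2
    have e3 : ((fun k => (g0 i k - g0 j k) ^ 2 + (g1 i k - g1 j k) ^ 2 : ℕ → ℝ) : RS) =
        ((fun _ => 1 : ℕ → ℝ) : RS) := e2
    have e4 := Germ.coe_eq.1 e3
    filter_upwards [e4] with k hk
    rw [dist_eq_iff zero_le_one, hpt0, hpt0, hpt1, hpt1, one_pow]
    exact hk
  have h2 : ∀ i j, dist (f i) (f j) = α →
      ∀ᶠ k in (hyperfilter ℕ : Filter ℕ), dist (pt k i) (pt k j) = x k := by
    intro i j hd
    rw [dist_eq_iff hα0.le] at hd
    have e1 : (⟨f i 0, hm0 i⟩ - ⟨f j 0, hm0 j⟩ : M) ^ 2 +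
        (⟨f i 1, hm1 i⟩ - ⟨f j 1, hm1 j⟩ : M) ^ 2 = (⟨α, hle hαM0⟩ : M) ^ 2 := by
      apply Subtype.ext
      exact hd
    have e2 := congrArg Φ e1
    rw [map_add, map_pow, map_pow, map_pow, map_sub, map_sub, hΦα, ← hg0' i, ← hg0' j,
      ← hg1' i, ← hg1' j] at e2
    have e3 : ((fun k => (g0 i k - g0 j k) ^ 2 + (g1 i k - g1 j k) ^ 2 : ℕ → ℝ) : RS) =
        ((fun k => x k ^ 2 : ℕ → ℝ) : RS) := e2
    have e4 := Germ.coe_eq.1 e3
    filter_upwards [e4] with k hk
    rw [dist_eq_iff (hx0 k).le, hpt0, hpt0, hpt1, hpt1]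
    exact hk
  have h3 : ∀ᶠ k in (hyperfilter ℕ : Filter ℕ),
      (∀ e ∈ G.E1, dist (pt k e.1) (pt k e.2) = 1) ∧
      ∀ e ∈ G.E2, dist (pt k e.1) (pt k e.2) = x k := by
    apply Filter.Eventually.and
    · rw [Filter.eventually_all_finset]
      intro e he
      exact h1 _ _ (hf1 e he)
    · rw [Filter.eventually_all_finset]
      intro e he
      exact h2 _ _ (hf2 e he)
  obtain ⟨k, hk1, hk2⟩ := h3.exists
  exact ⟨k, hx0 k, pt k, hk1, hk2⟩

/-- a transcendental number in `G.S` is an interior point -/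
theorem Pat.interior_of_transcendental (G : Pat) {α : ℝ} (hα : Transcendental ℚ α)
    (hS : α ∈ G.S) : α ∈ interior G.S := by
  by_contra hcon
  have h1 : α ∈ closure (G.S)ᶜ := by
    rw [closure_compl]
    exact hcon
  have hpos : Set.Ioi (0 : ℝ) ∈ 𝓝 α := Ioi_mem_nhds hS.1
  have h2 : α ∈ closure ((G.S)ᶜ ∩ Set.Ioi 0) := by
    rw [mem_closure_iff_nhds] at h1 ⊢
    intro t ht
    obtain ⟨y, hy1, hy2⟩ := h1 (t ∩ Set.Ioi 0) (inter_mem ht hpos)
    exact ⟨y, hy1.1, hy2, hy1.2⟩
  obtain ⟨x, hx1, hx2⟩ := mem_closure_iff_seq_limit.1 h2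
  obtain ⟨k, hk⟩ := G.move hα hS x (fun k => (hx1 k).2) hx2
  exact (hx1 k).1 hk

/-- `G.S` is closed in the positive half line -/
theorem Pat.closed (G : Pat) {α : ℝ} (hα0 : 0 < α) (hcl : α ∈ closure G.S) : α ∈ G.S := by
  classical
  obtain ⟨x, hx1, hx2⟩ := mem_closure_iff_seq_limit.1 hcl
  choose hx0 f hf1 hf2 using hx1
  refine ⟨hα0, ?_⟩
  set U : Ultrafilter ℕ := hyperfilter ℕ with hU
  have hxU : Tendsto x (U : Filter ℕ) (𝓝 α) := hx2.mono_left Nat.hyperfilter_le_atTop
  -- bounded distance along the ultrafilter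
  let rel : Setoid (Fin G.N) :=
    { r := fun i j => ∃ R : ℝ, ∀ᶠ k in (U : Filter ℕ), dist (f k i) (f k j) ≤ R
      iseqv :=
        { refl := fun i => ⟨0, Eventually.of_forall fun k => by rw [dist_self]⟩
          symm := by
            rintro i j ⟨R, hR⟩
            refine ⟨R, ?_⟩
            filter_upwards [hR] with k hk
            rw [dist_comm]
            exact hk
          trans := by
            rintro i j l ⟨R, hR⟩ ⟨R', hR'⟩
            refine ⟨R + R', ?_⟩
            filter_upwards [hR, hR'] with k hk hk'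
            exact (dist_triangle _ (f k j) _).trans (add_le_add hk hk') } }
  set rep : Fin G.N → Fin G.N := fun i => (Quotient.mk rel i).out with hrep
  have hrepi : ∀ i, ∃ R : ℝ, ∀ᶠ k in (U : Filter ℕ), dist (f k (rep i)) (f k i) ≤ R := fun i =>
    Quotient.exact (Quotient.out_eq (Quotient.mk rel i))
  have hlim : ∀ i, ∃ a : Plane, Tendsto (fun k => f k i - f k (rep i)) (U : Filter ℕ) (𝓝 a) := by
    intro i
    obtain ⟨R, hR⟩ := hrepi i
    have hK : IsCompact (Metric.closedBall (0 : Plane) R) := isCompact_closedBall _ _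
    have h1 : ∀ᶠ k in (U : Filter ℕ), f k i - f k (rep i) ∈ Metric.closedBall (0 : Plane) R := by
      filter_upwards [hR] with k hk
      rw [mem_closedBall_zero_iff, ← dist_eq_norm, dist_comm]
      exact hk
    obtain ⟨a, _, ha⟩ := isCompact_iff_ultrafilter_le_nhds'.1 hK
      (U.map (fun k => f k i - f k (rep i))) h1
    exact ⟨a, ha⟩
  choose a ha using hlim
  have hkey : ∀ (i j : Fin G.N) (y : ℕ → ℝ) (b : ℝ), Tendsto y (U : Filter ℕ) (𝓝 b) →
      (∀ k, dist (f k i) (f k j) = y k) → dist (a i) (a j) = b := by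
    intro i j y b hy hd
    have hij : rep i = rep j := by
      have h1 : Quotient.mk rel i = Quotient.mk rel j := by
        apply Quotient.sound
        refine ⟨b + 1, ?_⟩
        filter_upwards [hy.eventually (gt_mem_nhds (show b < b + 1 by linarith))] with k hk
        rw [hd k]
        exact hk.le
      rw [hrep]
      simp only [h1]
    have h1 : Tendsto (fun k => dist (f k i - f k (rep i)) (f k j - f k (rep j)))
        (U : Filter ℕ) (𝓝 (dist (a i) (a j))) := (ha i).dist (ha j)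
    have h2 : (fun k => dist (f k i - f k (rep i)) (f k j - f k (rep j))) = y := by
      funext k
      rw [hij, dist_sub_right, hd k]
    rw [h2] at h1
    exact tendsto_nhds_unique h1 hy
  refine ⟨a, ?_, ?_⟩
  · intro e he
    exact hkey e.1 e.2 (fun _ => 1) 1 tendsto_const_nhds (fun k => hf1 k e he)
  · intro e he
    exact hkey e.1 e.2 x α hxU (fun k => hf2 k e he)

/-- the structure theorem -/
theorem structure_thm {n : ℕ} (T : Set (Fin n)) :
    ∃ 𝒰 : Set (Set ℝ), 𝒰.Countable ∧ (∀ U ∈ 𝒰, IsOpen U) ∧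
      (∀ U ∈ 𝒰, ∀ a ∈ frontier U, 0 < a → IsAlgebraic ℚ a) ∧
      Realizable n T = {a | 0 < a ∧ ∀ U ∈ 𝒰, a ∈ U} := by
  have hc := countable_Pat
  refine ⟨Set.range (fun G : {G : Pat // ¬ G.Colorable T} => Set.Ioi 0 \ G.1.S),
    Set.countable_range _, ?_, ?_, ?_⟩
  · rintro _ ⟨G, rfl⟩
    rw [isOpen_iff_mem_nhds]
    rintro a ⟨ha0, haS⟩
    have h1 : a ∉ closure G.1.S := fun h => haS (G.1.closed ha0 h)
    filter_upwards [Ioi_mem_nhds ha0, isClosed_closure.isOpen_compl.mem_nhds h1] with y hy1 hy2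
    exact ⟨hy1, fun h => hy2 (subset_closure h)⟩
  · rintro _ ⟨G, rfl⟩ a ha ha0
    by_contra halg
    have hopen : IsOpen (Set.Ioi 0 \ G.1.S) := by
      rw [isOpen_iff_mem_nhds]
      rintro a ⟨ha0, haS⟩
      have h1 : a ∉ closure G.1.S := fun h => haS (G.1.closed ha0 h)
      filter_upwards [Ioi_mem_nhds ha0, isClosed_closure.isOpen_compl.mem_nhds h1] with y hy1 hy2
      exact ⟨hy1, fun h => hy2 (subset_closure h)⟩
    rw [hopen.frontier_eq] at ha
    have haS : a ∈ G.1.S := by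
      by_contra h
      exact ha.2 ⟨ha0, h⟩
    have h1 := G.1.interior_of_transcendental halg haS
    obtain ⟨y, hy1, hy2⟩ := mem_closure_iff_nhds.1 ha.1 _ (mem_interior_iff_mem_nhds.1 h1)
    exact hy2.2 hy1
  · ext a
    constructor
    · intro ha
      refine ⟨ha.1, ?_⟩
      rintro _ ⟨G, rfl⟩
      refine ⟨ha.1, fun hS => ?_⟩
      exact (not_realizable_iff T ha.1).2 ⟨G.1, G.2, hS⟩ ha
    · rintro ⟨ha0, ha⟩
      by_contra hcon
      obtain ⟨G, hG, hS⟩ := (not_realizable_iff T ha0).1 hcon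
      exact (ha _ ⟨⟨G, hG⟩, rfl⟩).2 hS

end Pool.Agent.Lib.MP_776035_co
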