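import Mathlib

section

/-!
# Partial homomorphisms from the reals to an ultrapower of the reals

`RS` is the ultrapower of `ℝ` along the hyperfilter on `ℕ`.  A homomorphism `Φ : M → RS` defined on
a subfield `M` of `ℝ` is called good if `Φ m` has standard part `m` for every `m`.  A good
homomorphism extends to a good homomorphism on a subfield containing any given real number.
-/

set_option autoImplicit false

open Filter Topology Polynomial

namespace Pool.Agent.Lib.MP_776035_co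

/-- the ultrapower of the reals -/
abbrev RS : Type := Germ (hyperfilter ℕ : Filter ℕ) ℝ

theorem tn_coe {f : ℕ → ℝ} {r : ℝ} :
    ((f : RS)).Tendsto (𝓝 r) ↔ Tendsto f (hyperfilter ℕ : Filter ℕ) (𝓝 r) := Iff.rfl

theorem tn_add {x y : RS} {r s : ℝ} (hx : x.Tendsto (𝓝 r)) (hy : y.Tendsto (𝓝 s)) :
    (x + y).Tendsto (𝓝 (r + s)) := by
  induction x using Germ.inductionOn with | _ f => ?_
  induction y using Germ.inductionOn with | _ g => ?_
  exact Tendsto.add (tn_coe.1 hx) (tn_coe.1 hy)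

theorem tn_mul {x y : RS} {r s : ℝ} (hx : x.Tendsto (𝓝 r)) (hy : y.Tendsto (𝓝 s)) :
    (x * y).Tendsto (𝓝 (r * s)) := by
  induction x using Germ.inductionOn with | _ f => ?_
  induction y using Germ.inductionOn with | _ g => ?_
  exact Tendsto.mul (tn_coe.1 hx) (tn_coe.1 hy)

theorem tn_zero : (0 : RS).Tendsto (𝓝 0) := (tendsto_const_nhds : Tendsto (fun _ : ℕ => (0 : ℝ)) _ _)

theorem tn_unique {x : RS} {r s : ℝ} (hx : x.Tendsto (𝓝 r)) (hy : x.Tendsto (𝓝 s)) : r = s := by
  induction x using Germ.inductionOn with | _ f => ?_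
  exact tendsto_nhds_unique (tn_coe.1 hx) (tn_coe.1 hy)

theorem tn_inv {x : RS} {r : ℝ} (hx : x.Tendsto (𝓝 r)) (hr : r ≠ 0) :
    (x⁻¹).Tendsto (𝓝 r⁻¹) := by
  induction x using Germ.inductionOn with | _ f => ?_
  exact Tendsto.inv₀ (tn_coe.1 hx) hr

/-- good partial homomorphisms -/
def Good (M : Subfield ℝ) (Φ : M →+* RS) : Prop := ∀ m : M, (Φ m).Tendsto (𝓝 (m : ℝ))

variable {M : Subfield ℝ} {Φ : M →+* RS}

theorem Good.eval (h : Good M Φ) {g : RS} {β : ℝ} (hg : g.Tendsto (𝓝 β)) (Q : M[X]) :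
    (eval₂ Φ g Q).Tendsto (𝓝 (aeval β Q)) := by
  induction Q using Polynomial.induction_on' with
  | add P Q hP hQ =>
    rw [eval₂_add, map_add]
    exact tn_add hP hQ
  | monomial n a =>
    rw [eval₂_monomial, aeval_monomial]
    apply tn_mul (h a)
    induction n with
    | zero =>
      rw [pow_zero, pow_zero]
      exact (tendsto_const_nhds : Tendsto (fun _ : ℕ => (1 : ℝ)) _ _)
    | succ n ih =>
      rw [pow_succ, pow_succ]
      exact tn_mul ih hg

/-- extension of a good homomorphism: the abstract part -/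
theorem Good.extend (h : Good M Φ) {g : RS} {β : ℝ} (hg : g.Tendsto (𝓝 β))
    (hK : ∀ Q : M[X], aeval β Q = 0 → eval₂ Φ g Q = 0) :
    ∃ (M' : Subfield ℝ) (Φ' : M' →+* RS) (hle : M ≤ M') (hβ : β ∈ M'), Good M' Φ' ∧
      (∀ m : M, Φ' ⟨m, hle m.2⟩ = Φ m) ∧ Φ' ⟨β, hβ⟩ = g := by
  classical
  have hne : ∀ Q : M[X], aeval β Q ≠ 0 → eval₂ Φ g Q ≠ 0 := by
    intro Q hQ h0
    have h1 := h.eval hg Q
    rw [h0] at h1
    exact hQ (tn_unique h1 tn_zero)
  set E : IntermediateField M ℝ := IntermediateField.adjoin M {β} with hE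
  have hmem : ∀ y : E, ∃ r s : M[X], aeval β s ≠ 0 ∧ (y : ℝ) = aeval β r / aeval β s := by
    intro y
    obtain ⟨r, s, hrs⟩ := IntermediateField.mem_adjoin_simple_iff M (y : ℝ) |>.1 y.2
    by_cases hs : aeval β s = 0
    · refine ⟨0, 1, by simp, ?_⟩
      rw [hrs, hs]
      simp
    · exact ⟨r, s, hs, hrs⟩
  choose r s hs hrs using hmem
  -- the value, independent of the choice
  have hwd : ∀ (y : E) (a b : M[X]), aeval β b ≠ 0 → (y : ℝ) = aeval β a / aeval β b →
      eval₂ Φ g (r y) / eval₂ Φ g (s y) = eval₂ Φ g a / eval₂ Φ g b := by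
    intro y a b hb hab
    rw [div_eq_div_iff (hne _ (hs y)) (hne _ hb)]
    have h1 : aeval β (r y * b - a * s y) = 0 := by
      rw [map_sub, map_mul, map_mul, sub_eq_zero]
      rw [hrs y, div_eq_div_iff (hs y) hb] at hab
      exact hab
    have h2 := hK _ h1
    rw [eval₂_sub, eval₂_mul, eval₂_mul, sub_eq_zero] at h2
    exact h2
  let Ψ : E →+* RS :=
    { toFun := fun y => eval₂ Φ g (r y) / eval₂ Φ g (s y)
      map_one' := by
        rw [hwd 1 1 1 (by simp) (by simp)]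
        simp
      map_zero' := by
        rw [hwd 0 0 1 (by simp) (by simp)]
        simp
      map_add' := by
        intro y z
        rw [hwd (y + z) (r y * s z + r z * s y) (s y * s z)
          (by rw [map_mul]; exact mul_ne_zero (hs y) (hs z))
          (by
            have e1 := hs y
            have e2 := hs z
            rw [map_add, map_mul, map_mul, map_mul]
            change (y : ℝ) + (z : ℝ) = _
            rw [hrs y, hrs z]
            field_simp)]
        have e1 := hne _ (hs y)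
        have e2 := hne _ (hs z)
        rw [eval₂_add, eval₂_mul, eval₂_mul, eval₂_mul]
        field_simp
      map_mul' := by
        intro y z
        rw [hwd (y * z) (r y * r z) (s y * s z)
          (by rw [map_mul]; exact mul_ne_zero (hs y) (hs z))
          (by
            have e1 := hs y
            have e2 := hs z
            rw [map_mul, map_mul]
            change (y : ℝ) * (z : ℝ) = _
            rw [hrs y, hrs z]
            field_simp)]
        have e1 := hne _ (hs y)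
        have e2 := hne _ (hs z)
        rw [eval₂_mul, eval₂_mul]
        field_simp }
  have hM : M ≤ E.toSubfield := by
    intro m hm
    exact E.algebraMap_mem ⟨m, hm⟩
  have hβ : β ∈ E.toSubfield := IntermediateField.mem_adjoin_simple_self M β
  refine ⟨E.toSubfield, Ψ, hM, hβ, ?_, ?_, ?_⟩
  · intro y
    change (eval₂ Φ g (r y) / eval₂ Φ g (s y)).Tendsto (𝓝 (y : ℝ))
    rw [div_eq_mul_inv]
    have h1 := tn_mul (h.eval hg (r y)) (tn_inv (h.eval hg (s y)) (hs y))
    rw [← div_eq_mul_inv (aeval β (r y) : ℝ)] at h1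
    have h2 := hrs y
    convert h1
  · intro m
    change eval₂ Φ g (r ⟨m, hM m.2⟩) / eval₂ Φ g (s ⟨m, hM m.2⟩) = Φ m
    rw [hwd ⟨m, hM m.2⟩ (C m) 1 (by simp) (by simp; rfl)]
    simp
  · change eval₂ Φ g (r ⟨β, hβ⟩) / eval₂ Φ g (s ⟨β, hβ⟩) = g
    rw [hwd ⟨β, hβ⟩ X 1 (by simp) (by simp)]
    simp

end Pool.Agent.Lib.MP_776035_co
end

section

/-!
# Lifting a simple real root to the ultrapower; extension to finitely many real numbers
-/

set_option autoImplicit false

open Filter Topology Polynomial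

namespace Pool.Agent.Lib.MP_776035_co

variable {M : Subfield ℝ} {Φ : M →+* RS}

/-- sign change of a function near a simple zero -/
theorem sign_change {p : ℝ → ℝ} {β c : ℝ} (hp : HasDerivAt p c β) (h0 : p β = 0) (hc : c ≠ 0)
    {δ : ℝ} (hδ : 0 < δ) : ∃ t, 0 < t ∧ t < δ ∧ p (β - t) * p (β + t) < 0 := by
  have h1 := hasDerivAt_iff_tendsto_slope.1 hp
  have h2 : ∀ᶠ y in 𝓝[≠] β, 0 < slope p β y * c := by
    have h3 : Tendsto (fun y => slope p β y * c) (𝓝[≠] β) (𝓝 (c * c)) := h1.mul_const c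
    exact h3.eventually (lt_mem_nhds (mul_self_pos.2 hc))
  rw [eventually_nhdsWithin_iff, Metric.eventually_nhds_iff] at h2
  obtain ⟨ε, hε, h2⟩ := h2
  set t := min (δ / 2) (ε / 2) with ht
  have ht0 : 0 < t := lt_min (by linarith) (by linarith)
  have htδ : t < δ := lt_of_le_of_lt (min_le_left _ _) (by linarith)
  have htε : t < ε := lt_of_le_of_lt (min_le_right _ _) (by linarith)
  refine ⟨t, ht0, htδ, ?_⟩
  have e1 := h2 (y := β - t) (by rw [Real.dist_eq]; simpa [abs_of_pos ht0] using htε)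
    (by simp [ht0.ne'])
  have e2 := h2 (y := β + t) (by rw [Real.dist_eq]; simpa [abs_of_pos ht0] using htε)
    (by simp [ht0.ne'])
  rw [slope_def_field, h0, sub_zero] at e1 e2
  have e3 : (β - t - β) = -t := by ring
  have e4 : (β + t - β) = t := by ring
  rw [e3] at e1
  rw [e4] at e2
  have e5 : 0 < (p (β - t) / (-t) * c) * (p (β + t) / t * c) := mul_pos e1 e2
  have e6 : (p (β - t) / (-t) * c) * (p (β + t) / t * c) =
      -(p (β - t) * p (β + t)) * (c / t) ^ 2 := by
    field_simp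
  rw [e6] at e5
  have e7 : 0 < (c / t) ^ 2 := by positivity
  nlinarith [(mul_pos_iff_of_pos_right e7).1 e5]

theorem ivt_prod {f : ℝ → ℝ} (hf : Continuous f) {u w : ℝ} (huw : u ≤ w) (h : f u * f w < 0) :
    ∃ y ∈ Set.Icc u w, f y = 0 := by
  rcases mul_neg_iff.1 h with ⟨h1, h2⟩ | ⟨h1, h2⟩
  · have := intermediate_value_Icc' huw hf.continuousOn (show (0 : ℝ) ∈ Set.Icc (f w) (f u) from
      ⟨h2.le, h1.le⟩)
    obtain ⟨y, hy, hy0⟩ := this
    exact ⟨y, hy, hy0⟩
  · have := intermediate_value_Icc huw hf.continuousOn (show (0 : ℝ) ∈ Set.Icc (f u) (f w) from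
      ⟨h1.le, h2.le⟩)
    obtain ⟨y, hy, hy0⟩ := this
    exact ⟨y, hy, hy0⟩

/-- a selection converging along the hyperfilter -/
theorem exists_selection (Z : ℕ → Set ℝ) (β : ℝ)
    (h : ∀ δ > 0, ∀ᶠ k in (hyperfilter ℕ : Filter ℕ), ∃ y ∈ Z k, |y - β| < δ) :
    ∃ b : ℕ → ℝ, Tendsto b (hyperfilter ℕ : Filter ℕ) (𝓝 β) ∧
      ∀ᶠ k in (hyperfilter ℕ : Filter ℕ), b k ∈ Z k := by
  classical
  have hsel : ∀ k : ℕ, ∃ b : ℝ, (Z k).Nonempty →
      b ∈ Z k ∧ ∀ y ∈ Z k, |b - β| < |y - β| + 1 / ((k : ℝ) + 1) := by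
    intro k
    by_cases hne : (Z k).Nonempty
    · set D : Set ℝ := (fun y => |y - β|) '' Z k with hD
      have hDne : D.Nonempty := hne.image _
      have hbdd : BddBelow D := ⟨0, by rintro _ ⟨y, _, rfl⟩; exact abs_nonneg _⟩
      have hpos : (0 : ℝ) < 1 / ((k : ℝ) + 1) := by positivity
      obtain ⟨_, ⟨b, hb, rfl⟩, hlt⟩ := Real.lt_sInf_add_pos hDne hpos
      refine ⟨b, fun _ => ⟨hb, fun y hy => ?_⟩⟩
      have : sInf D ≤ |y - β| := csInf_le hbdd ⟨y, hy, rfl⟩
      have h2 : |b - β| < sInf D + 1 / ((k : ℝ) + 1) := hlt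
      linarith
    · exact ⟨0, fun h => absurd h hne⟩
  choose b hb using hsel
  refine ⟨b, ?_, ?_⟩
  · rw [Metric.tendsto_nhds]
    intro ε hε
    have h1 := h (ε / 2) (by linarith)
    have h2 : ∀ᶠ k : ℕ in (hyperfilter ℕ : Filter ℕ), 1 / ((k : ℝ) + 1) < ε / 2 := by
      apply Nat.hyperfilter_le_atTop
      exact tendsto_one_div_add_atTop_nhds_zero_nat.eventually (gt_mem_nhds (by linarith))
    filter_upwards [h1, h2] with k ⟨y, hy, hyβ⟩ hk
    have h3 := (hb k ⟨y, hy⟩).2 y hy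
    rw [Real.dist_eq]
    linarith
  · filter_upwards [h 1 one_pos] with k ⟨y, hy, _⟩
    exact (hb k ⟨y, hy⟩).1

/-- a simple root lifts -/
theorem exists_root_near (h : Good M Φ) {β : ℝ} (hβ : IsAlgebraic M β) :
    ∃ g : RS, g.Tendsto (𝓝 β) ∧ ∀ Q : M[X], aeval β Q = 0 → eval₂ Φ g Q = 0 := by
  classical
  set P := minpoly M β with hP
  have hirr : Irreducible P := minpoly.irreducible hβ.isIntegral
  have hroot : aeval β P = 0 := minpoly.aeval M β
  have hder : aeval β (derivative P) ≠ 0 := hirr.separable.aeval_derivative_ne_zero hroot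
  -- representatives
  have hrep : ∀ i : ℕ, ∃ f : ℕ → ℝ, (f : RS) = Φ (P.coeff i) := fun i => by
    induction Φ (P.coeff i) using Germ.inductionOn with | _ f => exact ⟨f, rfl⟩
  choose f hf using hrep
  set n := P.natDegree with hn
  have hfl : ∀ i, Tendsto (f i) (hyperfilter ℕ : Filter ℕ) (𝓝 ((P.coeff i : M) : ℝ)) := by
    intro i
    have h1 := h (P.coeff i)
    rw [← hf i] at h1
    exact tn_coe.1 h1
  set Pk : ℕ → ℝ → ℝ := fun k y => ∑ i ∈ Finset.range (n + 1), f i k * y ^ i with hPk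
  have hPklim : ∀ y : ℝ, Tendsto (fun k => Pk k y) (hyperfilter ℕ : Filter ℕ) (𝓝 (aeval y P)) := by
    intro y
    rw [aeval_eq_sum_range]
    apply tendsto_finsetSum
    intro i _
    have : (P.coeff i) • y ^ i = ((P.coeff i : M) : ℝ) * y ^ i := rfl
    rw [this]
    exact (hfl i).mul_const _
  have hPkc : ∀ k, Continuous (Pk k) := fun k => by
    rw [hPk]
    fun_prop
  obtain ⟨b, hb1, hb2⟩ := exists_selection (fun k => {y | Pk k y = 0}) β (by
    intro δ hδ
    obtain ⟨t, ht0, htδ, hneg⟩ := sign_change (p := fun y => aeval y P)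
      (Polynomial.hasDerivAt_aeval P β) hroot hder hδ
    have h1 : ∀ᶠ k in (hyperfilter ℕ : Filter ℕ), Pk k (β - t) * Pk k (β + t) < 0 :=
      ((hPklim (β - t)).mul (hPklim (β + t))).eventually (gt_mem_nhds hneg)
    filter_upwards [h1] with k hk
    obtain ⟨y, hy, hy0⟩ := ivt_prod (hPkc k) (by linarith) hk
    refine ⟨y, hy0, ?_⟩
    rw [abs_lt]
    constructor <;> linarith [hy.1, hy.2])
  refine ⟨(b : RS), hb1, ?_⟩
  have hP0 : eval₂ Φ (b : RS) P = 0 := by
    rw [eval₂_eq_sum_range]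
    have h1 : ∑ i ∈ Finset.range (P.natDegree + 1), Φ (P.coeff i) * (b : RS) ^ i =
        ((fun k => Pk k (b k) : ℕ → ℝ) : RS) := by
      have h2 : (fun k => Pk k (b k) : ℕ → ℝ) = ∑ i ∈ Finset.range (n + 1), f i * b ^ i := by
        funext k
        rw [hPk]
        simp
      rw [h2]
      change _ = Germ.coeRingHom (hyperfilter ℕ : Filter ℕ) _
      rw [map_sum]
      apply Finset.sum_congr rfl
      intro i _
      rw [map_mul, map_pow, ← hf i]
      rfl
    rw [h1]
    exact Germ.coe_eq.2 hb2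
  intro Q hQ
  obtain ⟨R, hR⟩ := minpoly.dvd M β hQ
  rw [hR, eval₂_mul, ← hP, hP0, zero_mul]

theorem Good.step (h : Good M Φ) (β : ℝ) :
    ∃ (M' : Subfield ℝ) (Φ' : M' →+* RS) (hle : M ≤ M'), β ∈ M' ∧ Good M' Φ' ∧
      (∀ m : M, Φ' ⟨m, hle m.2⟩ = Φ m) := by
  by_cases hβ : IsAlgebraic M β
  · obtain ⟨g, hg, hK⟩ := exists_root_near h hβ
    obtain ⟨M', Φ', hle, hm, h1, h2, _⟩ := h.extend hg hK
    exact ⟨M', Φ', hle, hm, h1, h2⟩
  · have hg : (((fun _ => β : ℕ → ℝ)) : RS).Tendsto (𝓝 β) :=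
      (tendsto_const_nhds : Tendsto (fun _ : ℕ => β) _ _)
    obtain ⟨M', Φ', hle, hm, h1, h2, _⟩ := h.extend hg (fun Q hQ => by
      have : Q = 0 := by
        by_contra hne
        exact hβ ⟨Q, hne, hQ⟩
      rw [this, eval₂_zero])
    exact ⟨M', Φ', hle, hm, h1, h2⟩

theorem Good.finite (h : Good M Φ) (s : Finset ℝ) :
    ∃ (M' : Subfield ℝ) (Φ' : M' →+* RS) (hle : M ≤ M'), (∀ β ∈ s, β ∈ M') ∧ Good M' Φ' ∧
      (∀ m : M, Φ' ⟨m, hle m.2⟩ = Φ m) := by
  classical
  induction s using Finset.induction_on with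
  | empty => exact ⟨M, Φ, le_rfl, fun β hβ => absurd hβ (Finset.notMem_empty β), h, fun m => rfl⟩
  | insert a s _ ih =>
    obtain ⟨M1, Φ1, hle1, hs1, hg1, he1⟩ := ih
    obtain ⟨M2, Φ2, hle2, ha2, hg2, he2⟩ := hg1.step a
    refine ⟨M2, Φ2, hle1.trans hle2, ?_, hg2, ?_⟩
    · intro β hβ
      rcases Finset.mem_insert.1 hβ with rfl | hβ
      · exact ha2
      · exact hle2 (hs1 β hβ)
    · intro m
      rw [← he1 m, ← he2 ⟨m, hle1 m.2⟩]

/-- the start: a transcendental number goes to a given sequence converging to it -/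
theorem exists_start {α : ℝ} (hα : Transcendental ℚ α) {x : ℕ → ℝ}
    (hx : Tendsto x atTop (𝓝 α)) :
    ∃ (M : Subfield ℝ) (Φ : M →+* RS) (hα : α ∈ M), Good M Φ ∧ Φ ⟨α, hα⟩ = (x : RS) := by
  set M0 : Subfield ℝ := (algebraMap ℚ ℝ).fieldRange with hM0
  let Φ0 : M0 →+* RS :=
    (Germ.coeRingHom (hyperfilter ℕ : Filter ℕ)).comp ((Pi.constRingHom ℕ ℝ).comp M0.subtype)
  have hgood : Good M0 Φ0 := fun m => (tendsto_const_nhds : Tendsto (fun _ : ℕ => (m : ℝ)) _ _)
  have hg : ((x : RS)).Tendsto (𝓝 α) := hx.mono_left Nat.hyperfilter_le_atTop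
  obtain ⟨M', Φ', _, hm, h1, _, h3⟩ := hgood.extend hg (fun Q hQ => by
    have hsurj : Function.Surjective (algebraMap ℚ ℝ).rangeRestrictField :=
      (algebraMap ℚ ℝ).rangeRestrictField_bijective.2
    obtain ⟨P, hP⟩ := Polynomial.map_surjective _ hsurj Q
    have hP0 : aeval α P = 0 := by
      rw [← hP, aeval_def, eval₂_map] at hQ
      rw [aeval_def]
      exact hQ
    have : P = 0 := by
      by_contra hne
      exact hα ⟨P, hne, hP0⟩
    rw [← hP, this, Polynomial.map_zero, eval₂_zero])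
  exact ⟨M', Φ', hm, h1, h3⟩

end Pool.Agent.Lib.MP_776035_co
end
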